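import Pool.Agent.Y915.Stm
import Pool.Agent.H135R2.VS.Der

set_option autoImplicit false

/-!
# Algebraic power series inside the algebraic closure of `ℚ(x)`, with derivations
-/

namespace Pool.Agent.Y240.PC

open Pool.Agent.Y915
open scoped PowerSeries Polynomial

theorem der_pow {B : Type} [CommRing B] (dB : B → B)
    (hm : ∀ a b, dB (a * b) = a * dB b + b * dB a) (x : B) (n : ℕ) :
    dB (x ^ n) = n * x ^ (n - 1) * dB x := by
  have h1 : dB 1 = 0 := by
    have := hm 1 1
    rw [one_mul, one_mul] at this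
    linear_combination -this
  induction n with
  | zero => simp [h1]
  | succ n ih =>
    rw [pow_succ, hm, ih]
    rcases n with _ | n
    · simp
    · simp only [Nat.add_sub_cancel, pow_succ]
      push_cast
      ring

/-- The derivative of a polynomial expression. -/
theorem exists_mc {A : Type} [CommRing A] (dA : A → A) (p : A[X]) :
    ∃ q : A[X], ∀ (B : Type) [CommRing B] [Algebra A B] (dB : B → B),
      (∀ a b, dB (a + b) = dB a + dB b) → (∀ a b, dB (a * b) = a * dB b + b * dB a) →
      (∀ a, dB (algebraMap A B a) = algebraMap A B (dA a)) → ∀ x : B,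
      dB (Polynomial.aeval x p) =
        Polynomial.aeval x q + Polynomial.aeval x (Polynomial.derivative p) * dB x := by
  induction p using Polynomial.induction_on' with
  | add p q hp hq =>
    obtain ⟨p', hp'⟩ := hp
    obtain ⟨q', hq'⟩ := hq
    refine ⟨p' + q', fun B _ _ dB ha hm h x => ?_⟩
    rw [map_add, ha, hp' B dB ha hm h x, hq' B dB ha hm h x, map_add, map_add, map_add]
    ring
  | monomial n a =>
    refine ⟨Polynomial.monomial n (dA a), fun B _ _ dB ha hm h x => ?_⟩
    rw [Polynomial.aeval_monomial, hm, der_pow dB hm, h,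
      Polynomial.aeval_monomial, Polynomial.derivative_monomial, Polynomial.aeval_monomial]
    simp only [map_mul, map_natCast]
    ring

/-- A separable annihilating polynomial. -/
theorem exists_sep {A B : Type} [CommRing A] [IsDomain A] [CharZero A] [CommRing B]
    [Algebra A B] (hinj : Function.Injective (algebraMap A B)) (f : B) (hf : IsAlgebraic A f) :
    ∃ P : A[X], Polynomial.aeval f P = 0 ∧
      Polynomial.aeval f (Polynomial.derivative P) ≠ 0 := by
  classical
  have hex : ∃ n : ℕ, ∃ P : A[X], P ≠ 0 ∧ Polynomial.aeval f P = 0 ∧ P.natDegree = n := by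
    obtain ⟨P, hP, hP0⟩ := hf
    exact ⟨_, P, hP, hP0, rfl⟩
  obtain ⟨P, hP, hP0, hPn⟩ := Nat.find_spec hex
  refine ⟨P, hP0, fun h => ?_⟩
  have hdeg : P.natDegree ≠ 0 := by
    intro h0
    rw [Polynomial.eq_C_of_natDegree_eq_zero h0, Polynomial.aeval_C] at hP0
    have h1 : P.coeff 0 = 0 := hinj (by rw [hP0, map_zero])
    apply hP
    rw [Polynomial.eq_C_of_natDegree_eq_zero h0, h1, Polynomial.C_0]
  have hlt := Polynomial.natDegree_derivative_lt hdeg
  refine Nat.find_min hex (m := (Polynomial.derivative P).natDegree) (by rw [← hPn]; exact hlt)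
    ⟨Polynomial.derivative P, ?_, h, rfl⟩
  exact Polynomial.derivative_ne_zero.2 hdeg

/-- Values of polynomials at elements of a subalgebra. -/
theorem coe_ae {A B : Type} [CommRing A] [CommRing B] [Algebra A B] (S : Subalgebra A B)
    (x : S) (Q : A[X]) :
    ((Polynomial.aeval x Q : S) : B) = Polynomial.aeval (x : B) Q := by
  have := Polynomial.aeval_algHom_apply S.val x Q
  exact this.symm

theorem algMap_inj : Function.Injective (algebraMap ℚ[X] ℚ⟦X⟧) := by
  intro a b h
  exact Polynomial.coe_injective ℚ h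

theorem dS_algMap (a : ℚ[X]) : PowerSeries.derivative ℚ (algebraMap ℚ[X] ℚ⟦X⟧ a) =
    algebraMap ℚ[X] ℚ⟦X⟧ (Polynomial.derivative a) :=
  PowerSeries.derivative_coe a

theorem dS_add (a b : ℚ⟦X⟧) : PowerSeries.derivative ℚ (a + b) =
    PowerSeries.derivative ℚ a + PowerSeries.derivative ℚ b := map_add _ _ _

theorem dS_mul (a b : ℚ⟦X⟧) : PowerSeries.derivative ℚ (a * b) =
    a * PowerSeries.derivative ℚ b + b * PowerSeries.derivative ℚ a :=
  (PowerSeries.derivative ℚ).leibniz a b

theorem tr1 : StTr1 := by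
  intro f hf
  obtain ⟨P, hP0, hP1⟩ := exists_sep algMap_inj f hf
  obtain ⟨q, hq⟩ := exists_mc (fun a : ℚ[X] => Polynomial.derivative a) P
  have h := hq ℚ⟦X⟧ (fun f => PowerSeries.derivative ℚ f) dS_add dS_mul dS_algMap f
  simp only [hP0, map_zero] at h
  have h1 : Polynomial.aeval f (Polynomial.derivative P) * PowerSeries.derivative ℚ f =
      -Polynomial.aeval f q := by
    linear_combination -h
  have hal : ∀ Q : ℚ[X][X], IsAlgebraic ℚ[X] (Polynomial.aeval f Q) := fun Q => by
    rw [← coe_ae (Subalgebra.algebraicClosure ℚ[X] ℚ⟦X⟧) ⟨f, hf⟩ Q]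
    exact (Polynomial.aeval (⟨f, hf⟩ : Subalgebra.algebraicClosure ℚ[X] ℚ⟦X⟧) Q).2
  refine IsAlgebraic.of_mul (mem_nonZeroDivisors_of_ne_zero hP1) (hal _) ?_
  rw [h1]
  exact (hal _).neg

/-- The variable in the algebraic closure. -/
noncomputable abbrev xx : AlgebraicClosure (RatFunc ℚ) :=
  algebraMap (RatFunc ℚ) (AlgebraicClosure (RatFunc ℚ)) RatFunc.X

theorem xx_trans : Transcendental ℚ xx := by
  refine (transcendental_algebraMap_iff (R := ℚ) (S := RatFunc ℚ)
    (A := AlgebraicClosure (RatFunc ℚ))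
    (algebraMap (RatFunc ℚ) (AlgebraicClosure (RatFunc ℚ))).injective).2 ?_
  have h := RatFunc.transcendental_X (K := ℚ)
  have e : (RatFunc.instAlgebraOfPolynomial ℚ ℚ : Algebra ℚ (RatFunc ℚ)) =
    DivisionRing.toRatAlgebra := Subsingleton.elim _ _
  rw [← e]
  exact h

theorem algMap_om (P : ℚ[X]) : algebraMap ℚ[X] (AlgebraicClosure (RatFunc ℚ)) P =
    Polynomial.aeval xx P := by
  rw [IsScalarTower.algebraMap_apply ℚ[X] (RatFunc ℚ) (AlgebraicClosure (RatFunc ℚ)),
    Polynomial.aeval_algebraMap_apply]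
  congr 1
  induction P using Polynomial.induction_on' with
  | add p q hp hq => rw [map_add, map_add, hp, hq]
  | monomial n a =>
    rw [Polynomial.aeval_monomial, ← Polynomial.C_mul_X_pow_eq_monomial, map_mul, map_pow,
      RatFunc.algebraMap_X, eq_ratCast (algebraMap ℚ (RatFunc ℚ)) a]
    congr 1
    exact eq_ratCast ((algebraMap ℚ[X] (RatFunc ℚ)).comp Polynomial.C) a

theorem exists_D : ∃ D : Derivation ℚ (AlgebraicClosure (RatFunc ℚ))
    (AlgebraicClosure (RatFunc ℚ)), D xx = 1 := by
  obtain ⟨D, hD⟩ := Pool.Agent.H135R2.VS.exists_der (K := ℚ) (κ := Unit)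
    (x := fun _ => xx) (algebraicIndependent_unique_type_iff.2 xx_trans) (fun _ => 1)
  exact ⟨D, hD ()⟩

theorem mkD {B : Type} [CommRing B] (ia : Algebra ℤ B) (im : Module ℤ B) (D : B → B)
    (h0 : D 0 = 0) (ha : ∀ a b, D (a + b) = D a + D b)
    (hm : ∀ a b, D (a * b) = a * D b + b * D a) :
    ∃ D' : @Derivation ℤ B B _ _ _ ia _ im, ∀ y, D' y = D y := by
  obtain rfl : ia = Ring.toIntAlgebra B := Subsingleton.elim _ _
  obtain rfl : im = AddCommGroup.toIntModule B := Subsingleton.elim _ _
  exact ⟨Derivation.mk' (AddMonoidHom.toIntLinearMap ⟨⟨D, h0⟩, ha⟩) hm, fun _ => rfl⟩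

theorem tr2 : StTr2 := by
  obtain ⟨D, hD⟩ := exists_D
  have hDP : ∀ P : ℚ[X], D (algebraMap ℚ[X] (AlgebraicClosure (RatFunc ℚ)) P) =
      algebraMap ℚ[X] (AlgebraicClosure (RatFunc ℚ)) (Polynomial.derivative P) := by
    intro P
    rw [algMap_om, algMap_om, Derivation.map_aeval, hD, smul_eq_mul, mul_one]
  have hominj : Function.Injective (algebraMap ℚ[X] (AlgebraicClosure (RatFunc ℚ))) := by
    rw [IsScalarTower.algebraMap_eq ℚ[X] (RatFunc ℚ) (AlgebraicClosure (RatFunc ℚ))]
    exact (algebraMap (RatFunc ℚ) (AlgebraicClosure (RatFunc ℚ))).injective.comp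
      (RatFunc.algebraMap_injective ℚ)
  have htf : Module.IsTorsionFree ℚ[X] (Subalgebra.algebraicClosure ℚ[X] ℚ⟦X⟧) := by
    rw [Module.isTorsionFree_iff_algebraMap_injective]
    intro a b hab
    exact algMap_inj (congrArg Subtype.val hab)
  have htf2 : Module.IsTorsionFree ℚ[X] (AlgebraicClosure (RatFunc ℚ)) := by
    rw [Module.isTorsionFree_iff_algebraMap_injective]
    exact hominj
  let σ : Subalgebra.algebraicClosure ℚ[X] ℚ⟦X⟧ →ₐ[ℚ[X]] AlgebraicClosure (RatFunc ℚ) :=
    IsAlgClosed.lift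
  obtain ⟨D', hD'⟩ := mkD _ _ (fun y => D y) (map_zero D) (fun a b => map_add D a b)
    (fun a b => D.leibniz a b)
  have hσinj : Function.Injective σ := by
    rw [injective_iff_map_eq_zero]
    intro b hb
    by_contra hb0
    have halg : IsAlgebraic ℚ[X] b := Algebra.IsAlgebraic.isAlgebraic b
    obtain ⟨r, hr, hdvd⟩ := halg.exists_nonzero_dvd (mem_nonZeroDivisors_of_ne_zero hb0)
    obtain ⟨c, hc⟩ := hdvd
    have h1 : σ (algebraMap ℚ[X] _ r) = 0 := by rw [hc, map_mul, hb, zero_mul]
    rw [AlgHom.commutes] at h1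
    exact hr (hominj (by rw [h1, map_zero]))
  refine ⟨D', σ.toRingHom, (hD' _).trans hD, hσinj, fun P => ?_, fun f g hfg => ?_⟩
  · change σ (algebraMap ℚ[X] _ P) = _
    rw [AlgHom.commutes]
    exact IsScalarTower.algebraMap_apply ℚ[X] (RatFunc ℚ) (AlgebraicClosure (RatFunc ℚ)) P
  · change σ g = D' (σ f)
    rw [hD']
    obtain ⟨P, hP0, hP1⟩ := exists_sep algMap_inj (f : ℚ⟦X⟧) f.2
    obtain ⟨q, hq⟩ := exists_mc (fun a : ℚ[X] => Polynomial.derivative a) P
    have h := hq ℚ⟦X⟧ (fun f => PowerSeries.derivative ℚ f) dS_add dS_mul dS_algMap f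
    simp only [hP0, map_zero] at h
    have h2 : Polynomial.aeval f q + Polynomial.aeval f (Polynomial.derivative P) * g = 0 := by
      apply Subtype.ext
      push_cast
      rw [hfg]
      exact h.symm
    have h3 := congrArg σ h2
    rw [map_add, map_mul, map_zero, ← Polynomial.aeval_algHom_apply,
      ← Polynomial.aeval_algHom_apply] at h3
    have h4 := hq (AlgebraicClosure (RatFunc ℚ)) (fun y => D y) (fun a b => map_add _ _ _)
      (fun a b => D.leibniz a b) hDP (σ f)
    have h5 : Polynomial.aeval (σ f) P = 0 := by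
      rw [Polynomial.aeval_algHom_apply]
      have : Polynomial.aeval f P = 0 := by
        apply Subtype.ext
        rw [coe_ae, hP0]
        rfl
      rw [this, map_zero]
    simp only [h5, map_zero] at h4
    have h6 : Polynomial.aeval (σ f) (Polynomial.derivative P) ≠ 0 := by
      rw [Polynomial.aeval_algHom_apply]
      intro h0
      have h7 : Polynomial.aeval f (Polynomial.derivative P) = 0 :=
        hσinj (by rw [h0, map_zero])
      apply hP1
      rw [← coe_ae, h7]
      rfl
    apply mul_left_cancel₀ h6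
    linear_combination h3 + h4

end Pool.Agent.Y240.PC
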